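import Pool.Agent.Helper27.NC.Defs
import Pool.Agent.Helper4.NC.Frm
import Pool.Agent.Helper70.NB.CardFits
import Pool.Agent.Helper18.NF.Nd

/-!
# B10' : the closing instances of one state (nearly hidden words)
-/

set_option autoImplicit false

namespace Pool.Agent.Helper89.NC

open Pool.Agent.Helper6.IP (cnt)
open Pool.Agent.Helper19.NF (Prog obs val ring out CF Pos Dir pos Label Idx Valid lev pst slt PProg)
open Pool.Agent.Helper27.NB (rd New Early Rip crip Hit Chain InR Fits Typ wt)
open Pool.Agent.Helper27.NC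
open Pool.Agent.Helper70.NB (card_fits sum_wt)
open Pool.Agent.Helper4.NC (secrets)
open Pool.Agent.Helper18.NF (nd_inj nd_row)

variable {n m : ℕ} [NeZero m] {B Λ F Z : Type} [AddCommGroup B] [Fintype Λ] {σ S ρ h a M : ℕ}

theorem finite_fits (L : Fin (n - 1) → Label n m) (T T' : ℕ) :
    Finite {num : Idx L → ℕ // Fits L T T' num} := by
  apply Finite.of_injective (fun (f : {num : Idx L → ℕ // Fits L T T' num}) (x : Idx L) =>
    (⟨f.1 x, by
      have := f.2.1 x
      split_ifs at this <;> omega⟩ : Fin (T + T')))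
  intro f g h
  apply Subtype.ext
  funext x
  have := congrFun h x
  simpa using congrArg Fin.val this

omit [NeZero m] in
theorem wt_nonneg {K K' x : ℝ} (hK : 0 ≤ K) (hK' : 0 ≤ K') (hx : 0 < x) (ℓ : Label n m) : 0 ≤ wt K K' x ℓ := by
  unfold wt
  split_ifs
  · positivity
  · positivity

/-- The number of the nodes of a sequence of labels. -/
theorem card_idx_le (L : Fin (n - 1) → Label n m) : Fintype.card (Idx L) ≤ n * m := by
  have hm : 1 ≤ m := Nat.one_le_iff_ne_zero.mpr (NeZero.ne m)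
  rw [Fintype.card_sigma]
  calc ∑ a, Fintype.card (Pool.Agent.Helper19.NF.Fib (L a)) ≤ ∑ _a : Fin (n - 1), m := by
        refine Finset.sum_le_sum fun a _ => ?_
        rw [Pool.Agent.Helper70.NF.card_fib]
        split_ifs <;> omega
    _ = (n - 1) * m := by rw [Finset.sum_const, Finset.card_univ, Fintype.card_fin, smul_eq_mul]
    _ ≤ n * m := Nat.mul_le_mul_right _ (Nat.sub_le _ _)

/-- The instances of one sequence of labels. -/
theorem label_bound [Fintype B] [Fintype F] (H : Hid Λ F (Dir m → B) ρ h M) (hah : a + h = Fintype.card Λ)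
    (hM1 : 1 ≤ M) (hM : 4 * (n * m) ≤ M)
    (x0 : Pos n m → B) (P : Prog (B × Λ) F Z σ S) (q : Fin S) (T T' : ℕ) (x : ℝ)
    (hx : 0 < x) (L : Fin (n - 1) → Label n m) :
    (Nat.card (Σ num : {num : Idx L → ℕ // Valid L ∧ Fits L T T' num},
      {J : B × Λ → F // CF (ring n m) x0 n (wd H J) ∧ Typ a x0 (wd H J) (obs P J q) L num.1}) : ℝ) ≤
      Real.exp x * (∏ a, wt ((T : ℝ) / Fintype.card B) ((T' : ℝ) / Fintype.card B) x (L a)) *
        (2 * Nat.card (B × Λ → F)) := by
  classical
  have hk : 0 < Fintype.card B := Fintype.card_pos_iff.mpr ⟨0⟩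
  have hkr : (0 : ℝ) < (Fintype.card B : ℝ) := by exact_mod_cast hk
  have hK : (0 : ℝ) ≤ (T : ℝ) / Fintype.card B := by positivity
  have hK' : (0 : ℝ) ≤ (T' : ℝ) / Fintype.card B := by positivity
  have hw : 0 ≤ ∏ a, wt ((T : ℝ) / Fintype.card B) ((T' : ℝ) / Fintype.card B) x (L a) :=
    Finset.prod_nonneg fun a _ => wt_nonneg hK hK' hx _
  by_cases hV : Valid L
  · have e : {num : Idx L → ℕ // Valid L ∧ Fits L T T' num} ≃ {num : Idx L → ℕ // Fits L T T' num} :=
      Equiv.subtypeEquivRight fun num => by simp [hV]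
    have := finite_fits L T T'
    have : Finite {num : Idx L → ℕ // Valid L ∧ Fits L T T' num} := Finite.of_equiv _ e.symm
    let _ : Fintype {num : Idx L → ℕ // Valid L ∧ Fits L T T' num} := Fintype.ofFinite _
    rw [Nat.card_sigma]
    push_cast
    have h1 : ∀ num : {num : Idx L → ℕ // Valid L ∧ Fits L T T' num},
        (Nat.card {J : B × Λ → F // CF (ring n m) x0 n (wd H J) ∧
          Typ a x0 (wd H J) (obs P J q) L num.1} : ℝ) ≤
          (2 * Nat.card (B × Λ → F)) / (Fintype.card B : ℝ) ^ Fintype.card (Idx L) := by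
      intro num
      rw [le_div_iff₀ (by positivity)]
      have := secrets H hah hM1 ((Nat.mul_le_mul_left 4 (card_idx_le L)).trans hM) (ring n m) x0 n P q
        (fun x : Idx L => (n - lev L x.1, pst L x.1 x.2.1))
        (nd_inj L hV) (fun x => nd_row L hV x.1) (fun x => slt L x.1 x.2.1)
        (fun x => (L x.1).2.isLeft) num.1
      exact_mod_cast this
    calc ∑ num : {num : Idx L → ℕ // Valid L ∧ Fits L T T' num},
          (Nat.card {J : B × Λ → F // CF (ring n m) x0 n (wd H J) ∧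
            Typ a x0 (wd H J) (obs P J q) L num.1} : ℝ)
        ≤ ∑ _num : {num : Idx L → ℕ // Valid L ∧ Fits L T T' num},
          (2 * Nat.card (B × Λ → F)) / (Fintype.card B : ℝ) ^ Fintype.card (Idx L) :=
          Finset.sum_le_sum fun num _ => h1 num
      _ = (Nat.card {num : Idx L → ℕ // Fits L T T' num} : ℝ) *
          ((2 * Nat.card (B × Λ → F)) / (Fintype.card B : ℝ) ^ Fintype.card (Idx L)) := by
          rw [Finset.sum_const, nsmul_eq_mul, Finset.card_univ, ← Nat.card_eq_fintype_card, Nat.card_congr e]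
      _ ≤ (Real.exp x * (∏ a, wt ((T : ℝ) / Fintype.card B) ((T' : ℝ) / Fintype.card B) x (L a)) *
            (Fintype.card B : ℝ) ^ Fintype.card (Idx L)) *
          ((2 * Nat.card (B × Λ → F)) / (Fintype.card B : ℝ) ^ Fintype.card (Idx L)) := by
          apply mul_le_mul_of_nonneg_right (card_fits L T T' _ hk x hx) (by positivity)
      _ = _ := by
          field_simp
  · have : IsEmpty {num : Idx L → ℕ // Valid L ∧ Fits L T T' num} := ⟨fun s => hV s.2.1⟩
    have : Nat.card (Σ num : {num : Idx L → ℕ // Valid L ∧ Fits L T T' num},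
      {J : B × Λ → F // CF (ring n m) x0 n (wd H J) ∧ Typ a x0 (wd H J) (obs P J q) L num.1}) = 0 :=
      Nat.card_of_isEmpty
    rw [this]
    simp only [Nat.cast_zero]
    positivity

/-- B10': the closing instances of one state. -/
theorem close_bound [Fintype B] [Fintype F] (H : Hid Λ F (Dir m → B) ρ h M) (hah : a + h = Fintype.card Λ)
    (hM1 : 1 ≤ M) (hM : 4 * (n * m) ≤ M)
    (x0 : Pos n m → B) (P : Prog (B × Λ) F Z σ S) (q : Fin S) (T T' : ℕ) (x : ℝ) (hx : 0 < x) :
    (Nat.card {J : B × Λ → F // CF (ring n m) x0 n (wd H J) ∧ ∃ (L : Fin (n - 1) → Label n m) (num : Idx L → ℕ),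
      Valid L ∧ Fits L T T' num ∧ Typ a x0 (wd H J) (obs P J q) L num} : ℝ) ≤
      2 * (Real.exp x * (4 * m ^ 2 * ((T : ℝ) / Fintype.card B) / x +
        2 * m ^ 2 * n * ((T' : ℝ) / Fintype.card B) ^ m) ^ (n - 1) * Nat.card (B × Λ → F)) := by
  classical
  have hfin : ∀ L : Fin (n - 1) → Label n m, Finite {num : Idx L → ℕ // Valid L ∧ Fits L T T' num} := by
    intro L
    have := finite_fits L T T'
    exact Finite.of_injective (fun s : {num : Idx L → ℕ // Valid L ∧ Fits L T T' num} =>
      (⟨s.1, s.2.2⟩ : {num : Idx L → ℕ // Fits L T T' num})) fun a b h => Subtype.ext (by simpa using h)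
  have h1 : Nat.card {J : B × Λ → F // CF (ring n m) x0 n (wd H J) ∧
      ∃ (L : Fin (n - 1) → Label n m) (num : Idx L → ℕ),
      Valid L ∧ Fits L T T' num ∧ Typ a x0 (wd H J) (obs P J q) L num} ≤
      Nat.card (Σ L : Fin (n - 1) → Label n m, Σ num : {num : Idx L → ℕ // Valid L ∧ Fits L T T' num},
        {J : B × Λ → F // CF (ring n m) x0 n (wd H J) ∧ Typ a x0 (wd H J) (obs P J q) L num.1}) := by
    refine Nat.card_le_card_of_injective (fun s => ⟨s.2.2.choose, ⟨s.2.2.choose_spec.choose,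
      s.2.2.choose_spec.choose_spec.1, s.2.2.choose_spec.choose_spec.2.1⟩, ⟨s.1, s.2.1,
      s.2.2.choose_spec.choose_spec.2.2⟩⟩) ?_
    intro a b h
    have := congrArg (fun z : (Σ L : Fin (n - 1) → Label n m, Σ num : {num : Idx L → ℕ // Valid L ∧ Fits L T T' num},
        {J : B × Λ → F // CF (ring n m) x0 n (wd H J) ∧ Typ _ x0 (wd H J) (obs P J q) L num.1}) => z.2.2.1) h
    exact Subtype.ext this
  rw [Nat.card_sigma] at h1
  calc (Nat.card {J : B × Λ → F // CF (ring n m) x0 n (wd H J) ∧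
        ∃ (L : Fin (n - 1) → Label n m) (num : Idx L → ℕ),
        Valid L ∧ Fits L T T' num ∧ Typ a x0 (wd H J) (obs P J q) L num} : ℝ)
      ≤ ∑ L : Fin (n - 1) → Label n m, (Nat.card (Σ num : {num : Idx L → ℕ // Valid L ∧ Fits L T T' num},
        {J : B × Λ → F // CF (ring n m) x0 n (wd H J) ∧ Typ a x0 (wd H J) (obs P J q) L num.1}) : ℝ) := by
        exact_mod_cast h1
    _ ≤ ∑ L : Fin (n - 1) → Label n m, Real.exp x *
        (∏ a, wt ((T : ℝ) / Fintype.card B) ((T' : ℝ) / Fintype.card B) x (L a)) *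
        (2 * Nat.card (B × Λ → F)) := Finset.sum_le_sum fun L _ => label_bound H hah hM1 hM x0 P q T T' x hx L
    _ = 2 * (Real.exp x * (∑ L : Fin (n - 1) → Label n m, ∏ a, wt ((T : ℝ) / Fintype.card B)
        ((T' : ℝ) / Fintype.card B) x (L a)) * Nat.card (B × Λ → F)) := by
        rw [← Finset.sum_mul, ← Finset.mul_sum]
        ring
    _ = _ := by rw [sum_wt]

end Pool.Agent.Helper89.NC
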